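import Mathlib
import Pool.Agent.W792.WA.Stm5

/-!
# The Cauchy average of a bounded rational function
-/

set_option autoImplicit false

namespace Pool.Agent.N935.NP.Caui

open MeasureTheory Complex Filter Topology Pool.Agent.W792.WA

theorem add_ne {w : ℂ} (hw : w.im < 0) (a : ℝ) : (a : ℂ) + w ≠ 0 := by
  intro h
  have := congrArg Complex.im h
  simp at this
  linarith

theorem im_le (w : ℂ) (a : ℝ) : |w.im| ≤ ‖(a : ℂ) + w‖ := by
  have := Complex.abs_im_le_norm ((a : ℂ) + w)
  simpa using this

theorem re_le (a : ℝ) : |a| ≤ ‖(a : ℂ) - I‖ := by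
  have := Complex.abs_re_le_norm ((a : ℂ) - I)
  simpa using this

theorem sub_ne (a : ℝ) : (a : ℂ) - I ≠ 0 := by
  intro h
  have := congrArg Complex.im h
  simp at this

theorem norm_sub_sq (a : ℝ) : ‖(a : ℂ) - I‖ ^ 2 = 1 + a ^ 2 := by
  rw [← Complex.normSq_eq_norm_sq, Complex.normSq_apply]
  simp
  ring

theorem integrable_J {w : ℂ} (hw : w.im < 0) :
    Integrable (fun a : ℝ => 1 / (((a : ℂ) + w) * ((a : ℂ) - I))) := by
  have hc : Continuous fun a : ℝ => 1 / (((a : ℂ) + w) * ((a : ℂ) - I)) := by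
    refine Continuous.div continuous_const (by fun_prop) fun a => ?_
    exact mul_ne_zero (add_ne hw a) (sub_ne a)
  refine Integrable.mono' (integrable_inv_one_add_sq.const_mul (1 + ‖I + w‖ / |w.im|))
    hc.aestronglyMeasurable (Eventually.of_forall fun a => ?_)
  have h1 : 1 / (((a : ℂ) + w) * ((a : ℂ) - I)) =
      (1 + -(I + w) / ((a : ℂ) + w)) * (1 / ((a : ℂ) - I) ^ 2) := by
    have := add_ne hw a
    have := sub_ne a
    field_simp
    ring
  have h2 : 0 < |w.im| := abs_pos.2 hw.ne
  have h3 := im_le w a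
  rw [h1, norm_mul, norm_div, norm_one, norm_pow, norm_sub_sq, one_div]
  refine mul_le_mul_of_nonneg_right ?_ (by positivity)
  refine (norm_add_le _ _).trans ?_
  rw [norm_one, norm_div, norm_neg]
  have h4 : ‖I + w‖ / ‖(a : ℂ) + w‖ ≤ ‖I + w‖ / |w.im| :=
    div_le_div_of_nonneg_left (norm_nonneg _) h2 h3
  linarith

theorem tendsto_cob {l : Filter ℝ} (hl : Tendsto (fun a : ℝ => |a|) l atTop) :
    Tendsto (fun a : ℝ => ((a : ℂ) - I)⁻¹) l (𝓝 0) := by
  have h1 : Tendsto (fun a : ℝ => ‖(a : ℂ) - I‖) l atTop := tendsto_atTop_mono re_le hl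
  exact (tendsto_inv₀_cobounded).comp (tendsto_norm_atTop_iff_cobounded.1 h1)

theorem integral_J {w : ℂ} (hw : w.im < 0) :
    ∫ a : ℝ, 1 / (((a : ℂ) + w) * ((a : ℂ) - I)) = 0 := by
  by_cases h : I + w = 0
  · -- `w = -I`
    have hwI : w = - I := by linear_combination h
    have h1 : ∀ a : ℝ, HasDerivAt (fun a : ℝ => - ((a : ℂ) - I)⁻¹)
        (1 / (((a : ℂ) + w) * ((a : ℂ) - I))) a := by
      intro a
      have h2 : HasDerivAt (fun a : ℝ => (a : ℂ) - I) 1 a :=
        (Complex.ofRealCLM.hasDerivAt (x := a)).sub_const I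
      have h3 := (h2.inv (sub_ne a)).neg
      refine h3.congr_deriv ?_
      rw [hwI]
      have := sub_ne a
      rw [show (a : ℂ) + -I = (a : ℂ) - I by ring]
      field_simp
    have h2 := integral_of_hasDerivAt_of_tendsto h1 (integrable_J hw)
      (tendsto_cob tendsto_abs_atBot_atTop).neg (tendsto_cob tendsto_abs_atTop_atTop).neg
    rw [h2]
    simp
  · have h1 : ∀ a : ℝ, HasDerivAt (fun a : ℝ => Complex.log (((a : ℂ) + w) / ((a : ℂ) - I)))
        (- (I + w) * (1 / (((a : ℂ) + w) * ((a : ℂ) - I)))) a := by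
      intro a
      have h2 : HasDerivAt (fun a : ℝ => (a : ℂ) - I) 1 a :=
        (Complex.ofRealCLM.hasDerivAt (x := a)).sub_const I
      have h3 : HasDerivAt (fun a : ℝ => (a : ℂ) + w) 1 a :=
        (Complex.ofRealCLM.hasDerivAt (x := a)).add_const w
      have h4 := h3.div h2 (sub_ne a)
      have h5 : ((a : ℂ) + w) / ((a : ℂ) - I) ∈ slitPlane := by
        rw [Complex.mem_slitPlane_iff]
        by_contra h6
        push Not at h6
        set z := ((a : ℂ) + w) / ((a : ℂ) - I) with hz
        have h7 : z * ((a : ℂ) - I) = (a : ℂ) + w := div_mul_cancel₀ _ (sub_ne a)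
        have h8 := congrArg Complex.im h7
        simp [h6.2] at h8
        linarith [h6.1]
      have h6 := h4.clog_real h5
      refine h6.congr_deriv ?_
      have e1 := sub_ne a
      have e2 := add_ne hw a
      show (1 * ((a : ℂ) - I) - ((a : ℂ) + w) * 1) / ((a : ℂ) - I) ^ 2 /
        (((a : ℂ) + w) / ((a : ℂ) - I)) = _
      field_simp
      ring
    have h2 : ∀ l : Filter ℝ, Tendsto (fun a : ℝ => |a|) l atTop →
        Tendsto (fun a : ℝ => Complex.log (((a : ℂ) + w) / ((a : ℂ) - I))) l (𝓝 0) := by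
      intro l hl
      have h3 : Tendsto (fun a : ℝ => ((a : ℂ) + w) / ((a : ℂ) - I)) l (𝓝 1) := by
        have h4 : (fun a : ℝ => ((a : ℂ) + w) / ((a : ℂ) - I)) =
            fun a : ℝ => 1 + (I + w) * ((a : ℂ) - I)⁻¹ := by
          funext a
          have e1 := sub_ne a
          field_simp
          ring
        rw [h4]
        simpa using ((tendsto_cob hl).const_mul (I + w)).const_add 1
      have h5 := h3.clog (by simp [Complex.mem_slitPlane_iff])
      simpa using h5
    have h3 := integral_of_hasDerivAt_of_tendsto h1 ((integrable_J hw).const_mul (- (I + w)))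
      (h2 _ tendsto_abs_atBot_atTop) (h2 _ tendsto_abs_atTop_atTop)
    rw [integral_const_mul, sub_zero, mul_eq_zero, neg_eq_zero] at h3
    exact h3.resolve_left h

theorem key {w : ℂ} (hw : w.im < 0) :
    ∫ a, 1 / ((a : ℂ) + w) ∂(ProbabilityTheory.cauchyMeasure 0 1) = 1 / (w - I) := by
  rw [ProbabilityTheory.cauchyMeasure_of_scale_ne_zero 0 one_ne_zero,
    integral_withDensity_eq_integral_toReal_smul (ProbabilityTheory.measurable_cauchyPDF 0 1)
      (Eventually.of_forall fun a => ENNReal.ofReal_lt_top)]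
  have hwI : w - I ≠ 0 := by
    intro h
    have := congrArg Complex.im h
    simp at this
    linarith
  have h1 : ∀ a : ℝ, (ProbabilityTheory.cauchyPDF 0 1 a).toReal • (1 / ((a : ℂ) + w)) =
      ((Real.pi : ℂ)⁻¹ * (1 / (w - I))) * (((1 + a ^ 2)⁻¹ : ℝ) : ℂ) -
      ((Real.pi : ℂ)⁻¹ * (1 / (w - I))) * (1 / (((a : ℂ) + w) * ((a : ℂ) - I))) := by
    intro a
    rw [ProbabilityTheory.cauchyPDF_def, ENNReal.toReal_ofReal
      (ProbabilityTheory.cauchyPDF_pos 0 one_ne_zero a).le, ProbabilityTheory.cauchyPDFReal_def]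
    have e1 := sub_ne a
    have e2 := add_ne hw a
    have e3 : (1 + (a : ℂ) ^ 2) ≠ 0 := by
      have : (1 + a ^ 2 : ℝ) ≠ 0 := by positivity
      exact_mod_cast this
    have e4 : (Real.pi : ℂ) ≠ 0 := by exact_mod_cast Real.pi_ne_zero
    have e5 : (1 + (a : ℂ) ^ 2) = ((a : ℂ) - I) * ((a : ℂ) + I) := by
      linear_combination Complex.I_sq
    have e6 : (a : ℂ) + I ≠ 0 := by
      intro h
      rw [e5, h, mul_zero] at e3
      exact e3 rfl
    rw [Complex.real_smul]
    push_cast
    have e7 : ((a : ℂ) - 0) ^ 2 + 1 ^ 2 = ((a : ℂ) - I) * ((a : ℂ) + I) := by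
      linear_combination Complex.I_sq
    rw [e5, e7]
    field_simp
    ring
  rw [integral_congr_ae (Eventually.of_forall h1), integral_sub, integral_const_mul,
    integral_const_mul, integral_J hw, mul_zero, sub_zero, integral_complex_ofReal,
    integral_univ_inv_one_add_sq]
  · have e4 : (Real.pi : ℂ) ≠ 0 := by exact_mod_cast Real.pi_ne_zero
    field_simp
  · exact (integrable_inv_one_add_sq.ofReal).const_mul _
  · exact (integrable_J hw).const_mul _

theorem one_sub_ne {s : ℂ} (hs : ‖s‖ < 1) : 1 - s ≠ 0 := by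
  intro h
  have : s = 1 := by linear_combination -h
  rw [this, norm_one] at hs
  exact lt_irrefl _ hs

theorem pt {x s : ℂ} (hx : x.im < 0) (hs : ‖s‖ < 1) (a : ℝ) :
    cayx x a / (1 - cayx x a * s) = 1 / (1 - s) +
      (2 * I / (1 - s) ^ 2) * (1 / (x + a - I * (1 + s) / (1 - s))) ∧
      (I * (1 + s) / (1 - s)).im > 0 := by
  have h0 := one_sub_ne hs
  have him : (I * (1 + s) / (1 - s)).im > 0 := by
    have e1 : (I * (1 + s) / (1 - s)).im = (1 - ‖s‖ ^ 2) / ‖1 - s‖ ^ 2 := by
      rw [← Complex.normSq_eq_norm_sq, ← Complex.normSq_eq_norm_sq, Complex.div_im,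
        Complex.normSq_apply s]
      simp
      ring
    rw [e1]
    have : 0 < ‖1 - s‖ := norm_pos_iff.2 h0
    have : ‖s‖ ^ 2 < 1 := by nlinarith [norm_nonneg s]
    apply div_pos (by linarith) (by positivity)
  refine ⟨?_, him⟩
  have h1 : x + a - I ≠ 0 := by
    intro h
    have := congrArg Complex.im h
    simp at this
    linarith
  have h2 : x + a - I * (1 + s) / (1 - s) ≠ 0 := by
    intro h
    have := congrArg Complex.im h
    rw [Complex.sub_im] at this
    simp only [Complex.add_im, Complex.ofReal_im, add_zero, Complex.zero_im] at this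
    linarith
  have h3 : (x + a) * (1 - s) - I * (1 + s) ≠ 0 := by
    intro h
    apply h2
    have : x + a - I * (1 + s) / (1 - s) = ((x + a) * (1 - s) - I * (1 + s)) / (1 - s) := by
      field_simp
    rw [this, h, zero_div]
  have h4 : 1 - cayx x a * s = ((x + a) * (1 - s) - I * (1 + s)) / (x + a - I) := by
    unfold cayx
    field_simp
    ring
  have h5 : x + a - I * (1 + s) / (1 - s) = ((x + a) * (1 - s) - I * (1 + s)) / (1 - s) := by
    field_simp
  rw [h4, h5]
  unfold cayx
  field_simp
  ring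

theorem main : S_CAUI := by
  intro γ x s hγ hx hs
  have him := (pt hx hs 0).2
  have h0 := one_sub_ne hs
  have hγ' : (γ : ℂ) ≠ 0 := by exact_mod_cast hγ.ne'
  set w : ℂ := (x - I * (1 + s) / (1 - s)) / γ with hw
  have hwim : w.im < 0 := by
    rw [hw, Complex.div_ofReal_im, Complex.sub_im]
    apply div_neg_of_neg_of_pos _ hγ
    linarith
  have h1 : ∀ a : ℝ, cayx x (γ * a) / (1 - cayx x (γ * a) * s) =
      1 / (1 - s) + (2 * I / ((1 - s) ^ 2 * γ)) * (1 / (a + w)) := by
    intro a
    have h2 := (pt hx hs (γ * a)).1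
    rw [h2]
    have h3 : x + ((γ * a : ℝ) : ℂ) - I * (1 + s) / (1 - s) = γ * (a + w) := by
      rw [hw]
      push_cast
      field_simp
      ring
    rw [h3]
    have := add_ne hwim a
    field_simp
  rw [integral_congr_ae (Eventually.of_forall h1), integral_add (integrable_const _),
    integral_const_mul, key hwim, integral_const]
  · have hx' : (x - γ * I).im < 0 := by
      simp
      linarith
    have h2 := (pt hx' hs 0).1
    rw [h2]
    have hwI : w - I ≠ 0 := by
      intro h
      have := congrArg Complex.im h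
      simp at this
      linarith
    have h3 : x - γ * I + ((0 : ℝ) : ℂ) - I * (1 + s) / (1 - s) = γ * (w - I) := by
      rw [hw]
      push_cast
      field_simp
      ring
    rw [h3]
    rw [probReal_univ, one_smul]
    field_simp
  · refine Integrable.const_mul ?_ _
    refine Integrable.of_bound (C := 1 / |w.im|) ?_ (Eventually.of_forall fun a => ?_)
    · have : Continuous fun a : ℝ => 1 / ((a : ℂ) + w) :=
        Continuous.div continuous_const (by fun_prop) fun a => add_ne hwim a
      exact this.aestronglyMeasurable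
    · rw [norm_div, norm_one]
      exact div_le_div_of_nonneg_left zero_le_one (abs_pos.2 hwim.ne) (im_le w a)

end Pool.Agent.N935.NP.Caui
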